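import Mathlib
import Pool.Agent.Lib.helper23.KazH

set_option autoImplicit false

namespace Pool.Agent.Results.MP_e534f3_co.Main

open Filter Pool.Agent.Lib.helper23.KazH

/-- injective realisations in the plane -/
def Real2 {V : Type} (G : SimpleGraph V) (l : Sym2 V → ℝ) (ρ : V → ℂ) : Prop :=
  Function.Injective ρ ∧ ∀ u v, G.Adj u v → dist (ρ u) (ρ v) = l s(u, v)

/-- equivalence under direct isometries of the plane -/
def Eqv {V : Type} (ρ σ : V → ℂ) : Prop := ∃ a b : ℂ, ‖a‖ = 1 ∧ ∀ v, ρ v = a * σ v + b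

/-- movable graphs -/
def Movable {V : Type} (G : SimpleGraph V) : Prop :=
  ∃ l : Sym2 V → ℝ, (∀ u v, G.Adj u v → 0 < l s(u, v)) ∧
    ∃ ρ : ℕ → V → ℂ, (∀ n, Real2 G l (ρ n)) ∧ ∀ m n, m ≠ n → ¬ Eqv (ρ m) (ρ n)

/-- edge expansion at least `ε` -/
def Expa {V : Type} [Fintype V] (G : SimpleGraph V) (ε : ℝ) : Prop :=
  ∀ S : Finset V, 0 < S.card → 2 * S.card ≤ Fintype.card V →
    ε * S.card ≤ {e : Sym2 V | ∃ x ∈ S, ∃ y ∉ S, G.Adj x y ∧ e = s(x, y)}.ncard

theorem circ {p q : ℂ} (h : p ≠ q) (r t : ℝ) : {z : ℂ | dist z p = r ∧ dist z q = t}.Finite := by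
  by_contra hc
  obtain ⟨a, ha, b, hb, hab⟩ := Set.Infinite.nontrivial hc
  refine hc ((Set.toFinite {a, b}).subset fun z hz => ?_)
  exact EuclideanGeometry.eq_of_dist_eq_of_dist_eq_of_finrank_eq_two Complex.finrank_real_complex
    h hab ha.1 hb.1 hz.1 ha.2 hb.2 hz.2

theorem rigid {V : Type} [Finite V] (G : SimpleGraph V) {u v : V} (huv : G.Adj u v)
    (h : ∀ P : V → Prop, P u → P v →
      (∀ x y w, P x → P y → x ≠ y → G.Adj w x → G.Adj w y → P w) → ∀ w, P w) : ¬ Movable G := by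
  rintro ⟨l, hl, ρ, h1, h2⟩
  have h0 : ∀ n, ρ n v - ρ n u ≠ 0 := fun n => sub_ne_zero.2 fun e => huv.ne ((h1 n).1 e).symm
  let a : ℕ → ℂ := fun n => l s(u, v) / (ρ n v - ρ n u)
  have ha : ∀ n, ‖a n‖ = 1 := fun n => by
    rw [norm_div, ← dist_eq_norm, dist_comm, (h1 n).2 u v huv, Complex.norm_real,
      Real.norm_of_nonneg (hl u v huv).le, div_self (hl u v huv).ne']
  have a0 : ∀ n, a n ≠ 0 := fun n e => by simpa [e] using ha n
  let σ : ℕ → V → ℂ := fun n w => a n * (ρ n w - ρ n u)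
  have hσ : ∀ n x y, dist (σ n x) (σ n y) = dist (ρ n x) (ρ n y) := fun n x y => by
    simp only [σ, dist_eq_norm, ← mul_sub, norm_mul, ha, one_mul, sub_sub_sub_cancel_right]
  have hi : Function.Injective σ := fun m n e => by
    by_contra hc
    refine h2 m n hc ⟨a n / a m, ρ m u - a n / a m * ρ n u, by simp [ha], fun w => ?_⟩
    have := congrFun e w
    simp only [σ] at this
    field_simp [a0 m]
    linear_combination this
  have hf := h (fun w => (Set.range fun n => σ n w).Finite)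
    ((Set.finite_singleton 0).subset (by rintro _ ⟨n, rfl⟩; simp [σ]))
    ((Set.finite_singleton (l s(u, v) : ℂ)).subset (by
      rintro _ ⟨n, rfl⟩
      exact div_mul_cancel₀ _ (h0 n))) fun x y w px py hxy wx wy => by
    refine ((px.prod py).biUnion (t := fun c => {z : ℂ | c.1 ≠ c.2 ∧ dist z c.1 = l s(w, x) ∧
      dist z c.2 = l s(w, y)}) fun c _ => ?_).subset ?_
    · by_cases e : c.1 = c.2
      · simp [e]
      · exact (circ e _ _).subset fun z hz => hz.2
    · rintro _ ⟨n, rfl⟩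
      refine Set.mem_biUnion (x := (σ n x, σ n y)) ⟨⟨n, rfl⟩, n, rfl⟩ ⟨fun e => hxy ((h1 n).1 ?_),
        (hσ n _ _).trans ((h1 n).2 _ _ wx), (hσ n _ _).trans ((h1 n).2 _ _ wy)⟩
      rw [← dist_eq_zero, ← hσ, dist_eq_zero]
      exact e
  exact Set.infinite_range_of_injective hi ((Set.Finite.pi' hf).subset (by
    rintro _ ⟨n, rfl⟩ w
    exact ⟨n, rfl⟩))

def T {Γ : Type} [Group Γ] (s : Fin 3 → Γ) : Set Γ :=
  {t | t ≠ 1 ∧ ∃ (i j : Fin 3) (k m : ℕ), t = s i ^ k * s j ^ m}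

def Cay {Γ : Type} [Group Γ] {s : Fin 3 → Γ} (d : Gen s) : SimpleGraph Γ where
  Adj x y := y * x⁻¹ ∈ T s
  symm := ⟨fun x y ⟨h, i, j, k, m, e⟩ => ⟨fun a => h (by rw [mul_inv_eq_one] at a ⊢; exact a.symm),
    j, i, 4 * m, 4 * k, by
      have : ∀ i, (s i)⁻¹ = s i ^ 4 := fun i => inv_eq_of_mul_eq_one_right (by
        rw [← pow_succ', d.s5])
      rw [pow_mul, pow_mul, ← this, ← this, inv_pow, inv_pow, ← mul_inv_rev, ← e]
      simp⟩⟩
  loopless := ⟨fun x h => h.1 (mul_inv_cancel x)⟩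

theorem graphs (n : ℕ) : ∃ (V : Type) (_ : Fintype V) (G : SimpleGraph V) (d : Fin 226),
    n ≤ Fintype.card V ∧ 3 ≤ d.1 ∧ G.Connected ∧ (∀ v, (G.neighborSet v).ncard = d) ∧
      Expa G (1 / 48) ∧ ¬ Movable G := by
  classical
  obtain ⟨Γ, _, _, s, d, hn⟩ := groups n
  obtain ⟨i, hi⟩ : ∃ i, s i ≠ 1 := by
    by_contra! hc
    have : (⊤ : Subgroup Γ) = ⊥ := by
      rw [← d.top, Subgroup.closure_eq_bot_iff]
      rintro _ ⟨i, rfl⟩
      exact hc i
    have := Fintype.card_le_one_iff_subsingleton.2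
      (Subgroup.subsingleton_iff.1 (subsingleton_of_bot_eq_top this.symm))
    omega
  have adj : ∀ (x : Γ) (i j : Fin 3) (k m : ℕ), s i ^ k * s j ^ m * x = x ∨
      (Cay d).Adj x (s i ^ k * s j ^ m * x) := fun x i j k m => by
    by_cases h : s i ^ k * s j ^ m = 1
    · exact Or.inl (by rw [h, one_mul])
    · exact Or.inr ⟨by simpa using h, i, j, k, m, by simp⟩
  have ind : ∀ P : Γ → Prop, P 1 → (∀ x i k, P x → P (s i ^ k * x)) → ∀ x, P x := by
    intro P h1 h2 x
    have hx : x ∈ Subgroup.closure (Set.range s) := d.top ▸ trivial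
    induction hx using Subgroup.closure_induction_left with
    | one => exact h1
    | mul_left x hx y _ ih => obtain ⟨i, rfl⟩ := hx; simpa using h2 y i 1 ih
    | inv_mul_cancel x hx y _ ih =>
      obtain ⟨i, rfl⟩ := hx
      rw [inv_eq_of_mul_eq_one_right (a := s i) (b := s i ^ 4) (by rw [← pow_succ', d.s5])]
      exact h2 y i 4 ih
  have h1 : (T s).ncard < 226 := by
    refine Nat.lt_succ_of_le ((Set.ncard_le_ncard (t := Set.range fun
      a : (Fin 3 × Fin 5) × Fin 3 × Fin 5 => s a.1.1 ^ a.1.2.1 * s a.2.1 ^ a.2.2.1) ?_).trans ?_)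
    · rintro _ ⟨-, i, j, k, m, rfl⟩
      exact ⟨((i, ⟨k % 5, by omega⟩), j, ⟨m % 5, by omega⟩), by
        rw [pow_eq_pow_mod k (d.s5 i), pow_eq_pow_mod m (d.s5 j)]⟩
    · rw [← Set.image_univ]
      exact (Set.ncard_image_le).trans (by simp [Set.ncard_univ])
  have ho : orderOf (s i) = 5 := orderOf_eq_prime (d.s5 i) hi
  have h2 : 3 ≤ (T s).ncard := by
    rw [← Nat.card_fin 3, ← Set.ncard_univ]
    refine Set.ncard_le_ncard_of_injOn (fun k : Fin 3 => s i ^ (k.1 + 1)) (fun k _ =>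
      ⟨pow_ne_one_of_lt_orderOf (by omega) (by omega), i, i, k + 1, 0, by simp⟩) fun k _ m _ h => ?_
    have := pow_injOn_Iio_orderOf (x := s i) (show k.1 + 1 < _ by omega)
      (show m.1 + 1 < _ by omega) h
    exact Fin.ext (by omega)
  refine ⟨Γ, inferInstance, Cay d, ⟨_, h1⟩, by omega, h2, ?_, fun v => ?_, fun S _ hS => ?_, ?_⟩
  · refine (SimpleGraph.connected_iff_exists_forall_reachable _).2 ⟨1, ind _ (.refl _) ?_⟩
    intro x i k h
    have := adj x i i k 0
    rw [pow_zero, mul_one] at this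
    rcases this with e | e
    · rwa [e]
    · exact h.trans e.reachable
  · exact Set.ncard_preimage_of_injective_subset_range (f := fun y => y * v⁻¹)
      (mul_left_injective _) fun t _ => ⟨t * v, by simp⟩
  · have := expand d S hS
    have h3 : ∀ (i : Fin 3) (k : Fin 4), ((S.filter fun x => (s i ^ (k.1 + 1))⁻¹ * x ∉ S).card : ℝ) ≤
        {e : Sym2 Γ | ∃ x ∈ S, ∃ y ∉ S, (Cay d).Adj x y ∧ e = s(x, y)}.ncard := fun i k => by
      rw [← Set.ncard_coe_finset, Nat.cast_le]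
      refine Set.ncard_le_ncard_of_injOn (fun x => s(x, (s i ^ (k.1 + 1))⁻¹ * x)) (fun x hx => ?_)
        fun x hx y hy h => ?_
      · obtain ⟨a, b⟩ := Finset.mem_filter.1 hx
        refine ⟨x, a, _, b, SimpleGraph.Adj.symm ⟨fun e => b ?_, i, i, k + 1, 0, by simp⟩, rfl⟩
        rwa [← mul_inv_eq_one.1 e]
      · rcases Sym2.eq_iff.1 h with e | e
        · exact e.1
        · exact absurd (e.1 ▸ (Finset.mem_filter.1 hx).1) (Finset.mem_filter.1 hy).2
    have h4 := Finset.sum_le_sum fun i (_ : i ∈ Finset.univ) =>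
      Finset.sum_le_sum fun k (_ : k ∈ Finset.univ) => h3 i k
    simp only [Finset.sum_const, Finset.card_univ, Fintype.card_fin, nsmul_eq_mul] at h4
    push_cast at h4
    linarith
  · refine rigid (Cay d) (u := 1) (v := s i) ⟨by simpa using hi, i, i, 1, 0, by simp⟩ ?_
    intro P p1 p2 p3 w
    have key : ∀ x y (j : Fin 3) (k : ℕ), P x → P y → x ≠ y → (∃ a b c e,
        s j ^ k * x = s a ^ b * s c ^ e * y) → P (s j ^ k * x) := by
      rintro x y j k px py hxy ⟨a, b, c, e, h⟩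
      have := adj x j j k 0
      rw [pow_zero, mul_one] at this
      rcases this with e1 | e1
      · rwa [e1]
      rcases adj y a c b e with e2 | e2
      · rwa [h, e2]
      exact p3 x y _ px py hxy e1.symm (h ▸ e2.symm)
    have := ind (fun x => ∀ j k, P (s j ^ k * x)) (fun j k => key 1 (s i) j k p1 p2 hi.symm
      ⟨j, k, i, 4, by rw [mul_assoc, ← pow_succ, d.s5]⟩) (fun x a b h j k => by
        by_cases e : s a ^ b * x = x
        · rw [e]; exact h j k
        · exact key _ x j k (h a b) (by simpa using h a 0) e ⟨j, k, a, b, (mul_assoc _ _ _).symm⟩)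
      w i 0
    simpa using this

theorem result : ∃ (d : ℕ) (ε : ℝ) (V : ℕ → Type) (_ : ∀ n, Fintype (V n))
    (G : ∀ n, SimpleGraph (V n)), 3 ≤ d ∧ 0 < ε ∧
      Tendsto (fun n => Fintype.card (V n)) atTop atTop ∧ ∀ n, (G n).Connected ∧
        (∀ v, ((G n).neighborSet v).ncard = d) ∧ Expa (G n) ε ∧ ¬ Movable (G n) := by
  choose V F G d h1 h2 h3 h4 h5 using graphs
  obtain ⟨c, hc⟩ := Finite.exists_infinite_fiber d
  let e := Infinite.natEmbedding (d ⁻¹' {c})
  have he : ∀ n, d (e n) = c := fun n => (e n).2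
  exact ⟨c, 1 / 48, fun n => V (e n), fun n => F _, fun n => G _, he 0 ▸ h2 _, by norm_num,
    tendsto_atTop_mono (fun n => h1 _)
      (Subtype.val_injective.comp e.injective).nat_tendsto_atTop,
    fun n => ⟨h3 _, fun v => (h4 _ v).trans (congrArg _ (he n)), h5 _⟩⟩

end Pool.Agent.Results.MP_e534f3_co.Main
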